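import Mathlib

set_option autoImplicit false

/-!
Sets of integers whose products determine the number of factors have density at most `12 / 13`.
-/

namespace Pool.Agent.H510R3.EqLen

open Finset

variable {A : Set ℕ}

/-- the primes `p` which never connect two elements of `A` -/
def Q (A : Set ℕ) (p : ℕ) : Prop := p.Prime ∧ ∀ k : ℕ, ¬ (k ∈ A ∧ p * k ∈ A)

/-- every positive element of `A` is divisible by a prime in `Q A` -/
lemma exists_prime (hA : ∀ s t : Multiset ℕ, (∀ x ∈ s, x ∈ A) → (∀ x ∈ t, x ∈ A) →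
    s.prod = t.prod → Multiset.card s = Multiset.card t) {n : ℕ} (hn : n ≠ 0) (hnA : n ∈ A) :
    ∃ p, Q A p ∧ p ∣ n := by
  classical
  by_contra hcon
  have h1 : ∀ p : ℕ, ∃ k : ℕ, p ∈ n.primeFactorsList → (k ∈ A ∧ p * k ∈ A) := by
    intro p
    by_cases hp : p ∈ n.primeFactorsList
    · have h2 : p.Prime := Nat.prime_of_mem_primeFactorsList hp
      have h3 : p ∣ n := Nat.dvd_of_mem_primeFactorsList hp
      have h4 : ¬ Q A p := fun h => hcon ⟨p, h, h3⟩
      unfold Q at h4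
      push Not at h4
      obtain ⟨k, hk⟩ := h4 h2
      exact ⟨k, fun _ => hk⟩
    · exact ⟨0, fun h => absurd h hp⟩
  choose k hk using h1
  set l := n.primeFactorsList with hl
  have hprod : l.prod = n := Nat.prod_primeFactorsList hn
  have h5 := hA (n ::ₘ ((l.map k : List ℕ) : Multiset ℕ))
    ((l.map (fun p => p * k p) : List ℕ) : Multiset ℕ) ?_ ?_ ?_
  · rw [Multiset.card_cons, Multiset.coe_card, Multiset.coe_card, List.length_map,
      List.length_map] at h5
    omega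
  · intro x hx
    rw [Multiset.mem_cons, Multiset.mem_coe, List.mem_map] at hx
    rcases hx with rfl | ⟨p, hp, rfl⟩
    · exact hnA
    · exact (hk p hp).1
  · intro x hx
    rw [Multiset.mem_coe, List.mem_map] at hx
    obtain ⟨p, hp, rfl⟩ := hx
    exact (hk p hp).2
  · rw [Multiset.prod_cons, Multiset.prod_coe, Multiset.prod_coe, List.prod_map_mul,
      List.map_id', hprod]

lemma card_multiples (N q : ℕ) (hq : 0 < q) :
    (((Icc 1 N).filter (fun n => q ∣ n)).card : ℝ) ≤ N / q := by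
  have h1 : ((Icc 1 N).filter (fun n => q ∣ n)).card = N / q := by
    have h2 : (Icc 1 N).filter (fun n => q ∣ n) = (Ioc 0 N).filter (fun n => q ∣ n) := rfl
    rw [h2, Nat.Ioc_filter_dvd_card_eq_div]
  rw [h1]
  exact Nat.cast_div_le

open Classical in
/-- the counting function of `A` -/
noncomputable def cnt (A : Set ℕ) (N : ℕ) : ℕ := ((Icc 1 N).filter (fun n => n ∈ A)).card

open Classical in
lemma key (G : Finset ℕ) (hG : ∀ p ∈ G, Q A p) (N : ℕ) :
    ∑ p ∈ G, (((Icc 1 (N / p)).filter (fun k => k ∈ A ∧ ∀ q ∈ G, ¬ q ∣ k)).card) ≤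
      ((Icc 1 N).filter (fun n => n ∉ A)).card := by
  rw [← Finset.card_sigma]
  apply Finset.card_le_card_of_injOn (fun x : (_ : ℕ) × ℕ => x.1 * x.2)
  · rintro ⟨p, k⟩ hx
    rw [Finset.mem_coe, Finset.mem_sigma, Finset.mem_filter, Finset.mem_Icc] at hx
    obtain ⟨hp, ⟨hk1, hk2⟩, hkA, -⟩ := hx
    rw [Finset.mem_coe, Finset.mem_filter, Finset.mem_Icc]
    have hp0 : 0 < p := (hG p hp).1.pos
    refine ⟨⟨Nat.mul_pos hp0 hk1, ?_⟩, fun h => (hG p hp).2 k ⟨hkA, h⟩⟩
    calc p * k ≤ p * (N / p) := Nat.mul_le_mul_left p hk2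
      _ ≤ N := Nat.mul_div_le N p
  · rintro ⟨p, k⟩ hx ⟨p', k'⟩ hx' h
    rw [Finset.mem_coe, Finset.mem_sigma, Finset.mem_filter, Finset.mem_Icc] at hx hx'
    obtain ⟨hp, -, -, hkG⟩ := hx
    obtain ⟨hp', -, -, hkG'⟩ := hx'
    simp only at h hp hp' hkG hkG'
    have hpp : p = p' := by
      by_contra hne
      have h1 : p ∣ p' * k' := ⟨k, h.symm⟩
      rcases (hG p hp).1.dvd_mul.1 h1 with h2 | h2
      · exact hne ((Nat.prime_dvd_prime_iff_eq (hG p hp).1 (hG p' hp').1).1 h2)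
      · exact hkG' p hp h2
    subst hpp
    have h3 := Nat.eq_of_mul_eq_mul_left (hG p hp).1.pos h
    subst h3
    rfl

open Classical in
lemma lower (G : Finset ℕ) (hG : ∀ p ∈ G, Q A p) (N : ℕ) :
    (cnt A N : ℝ) - N * ∑ p ∈ G, (1 : ℝ) / p ≤
      ((Icc 1 N).filter (fun k => k ∈ A ∧ ∀ q ∈ G, ¬ q ∣ k)).card := by
  have h1 : cnt A N ≤ ((Icc 1 N).filter (fun k => k ∈ A ∧ ∀ q ∈ G, ¬ q ∣ k)).card +
      ∑ q ∈ G, ((Icc 1 N).filter (fun n => q ∣ n)).card := by
    unfold cnt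
    have h2 : (Icc 1 N).filter (fun n => n ∈ A) ⊆
        ((Icc 1 N).filter (fun k => k ∈ A ∧ ∀ q ∈ G, ¬ q ∣ k)) ∪
          G.biUnion (fun q => (Icc 1 N).filter (fun n => q ∣ n)) := by
      intro n hn
      rw [Finset.mem_filter] at hn
      rw [Finset.mem_union, Finset.mem_filter, Finset.mem_biUnion]
      by_cases h : ∀ q ∈ G, ¬ q ∣ n
      · exact Or.inl ⟨hn.1, hn.2, h⟩
      · push Not at h
        obtain ⟨q, hq, hqn⟩ := h
        exact Or.inr ⟨q, hq, Finset.mem_filter.2 ⟨hn.1, hqn⟩⟩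
    refine (Finset.card_le_card h2).trans ((Finset.card_union_le _ _).trans ?_)
    exact Nat.add_le_add_left Finset.card_biUnion_le _
  have h3 : (cnt A N : ℝ) ≤ ((Icc 1 N).filter (fun k => k ∈ A ∧ ∀ q ∈ G, ¬ q ∣ k)).card +
      ∑ q ∈ G, (((Icc 1 N).filter (fun n => q ∣ n)).card : ℝ) := by
    exact_mod_cast h1
  have h4 : ∑ q ∈ G, (((Icc 1 N).filter (fun n => q ∣ n)).card : ℝ) ≤
      N * ∑ p ∈ G, (1 : ℝ) / p := by
    rw [Finset.mul_sum]
    apply Finset.sum_le_sum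
    intro q hq
    have := card_multiples N q (hG q hq).1.pos
    rw [mul_one_div]; exact this
  linarith

lemma greedy (G : Finset ℕ) : (∀ p ∈ G, 2 ≤ p) → (1 / 4 : ℝ) ≤ ∑ p ∈ G, (1 : ℝ) / p →
    ∃ H ⊆ G, (1 / 4 : ℝ) ≤ ∑ p ∈ H, (1 : ℝ) / p ∧ ∑ p ∈ H, (1 : ℝ) / p ≤ 3 / 4 := by
  classical
  induction G using Finset.induction_on with
  | empty =>
    intro _ h
    rw [Finset.sum_empty] at h
    norm_num at h
  | insert a s ha ih =>
    intro h2 h
    by_cases hs : (1 / 4 : ℝ) ≤ ∑ p ∈ s, (1 : ℝ) / p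
    · obtain ⟨H, hH, h3⟩ := ih (fun p hp => h2 p (Finset.mem_insert_of_mem hp)) hs
      exact ⟨H, hH.trans (Finset.subset_insert a s), h3⟩
    · push Not at hs
      refine ⟨insert a s, subset_rfl, h, ?_⟩
      rw [Finset.sum_insert ha]
      have h4 : (2 : ℝ) ≤ a := by exact_mod_cast h2 a (Finset.mem_insert_self a s)
      have h5 : (1 : ℝ) / a ≤ 1 / 2 := one_div_le_one_div_of_le (by norm_num) h4
      linarith

open Classical in
theorem not_dense (hA : ∀ s t : Multiset ℕ, (∀ x ∈ s, x ∈ A) → (∀ x ∈ t, x ∈ A) →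
    s.prod = t.prod → Multiset.card s = Multiset.card t) :
    ¬ ∃ N0 : ℕ, ∀ N ≥ N0, (12 / 13 : ℝ) * N ≤ cnt A N := by
  rintro ⟨N0, hN0⟩
  by_cases hG : ∃ G : Finset ℕ, (∀ p ∈ G, Q A p) ∧ (1 / 4 : ℝ) ≤ ∑ p ∈ G, (1 : ℝ) / p
  · obtain ⟨G', hG', hs'⟩ := hG
    obtain ⟨G, hGG, h1, h2⟩ := greedy G' (fun p hp => (hG' p hp).1.two_le) hs'
    have hGQ : ∀ p ∈ G, Q A p := fun p hp => hG' p (hGG hp)
    set σ := ∑ p ∈ G, (1 : ℝ) / p with hσ
    set M := ∏ p ∈ G, p with hM
    have hMpos : 0 < M := Finset.prod_pos (fun p hp => (hGQ p hp).1.pos)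
    set n := N0 + 1 with hn
    have hlow : ∀ p ∈ G, ((12 / 13 : ℝ) - σ) * (M * n / p) ≤
        (((Icc 1 (M * n / p)).filter (fun k => k ∈ A ∧ ∀ q ∈ G, ¬ q ∣ k)).card : ℝ) := by
      intro p hp
      have hdvd : p ∣ M * n := (Finset.dvd_prod_of_mem _ hp).mul_right n
      have hp0 : 0 < p := (hGQ p hp).1.pos
      have hcast : ((M * n / p : ℕ) : ℝ) = (M : ℝ) * n / p := by
        rw [Nat.cast_div hdvd (by positivity)]; push_cast; ring
      have h3 := lower G hGQ (M * n / p)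
      have h4 := hN0 (M * n / p) (by
        obtain ⟨r, hr⟩ := Finset.dvd_prod_of_mem (fun p => p) hp
        have hr' : M = p * r := hr
        have hr0 : 0 < r := by
          rcases Nat.eq_zero_or_pos r with h | h
          · rw [hr', h] at hMpos; omega
          · exact h
        have : M * n / p = r * n := by
          rw [hr', mul_assoc, Nat.mul_div_cancel_left _ hp0]
        rw [this]
        have : n ≤ r * n := Nat.le_mul_of_pos_left _ hr0
        omega)
      rw [hcast] at h3 h4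
      have h5 : ((12 / 13 : ℝ) - σ) * (M * n / p) = 12 / 13 * (M * n / p) - (M * n / p) * σ := by
        ring
      rw [h5]
      linarith
    have hkey := key G hGQ (M * n)
    have hkey' : ∑ p ∈ G, (((Icc 1 (M * n / p)).filter
        (fun k => k ∈ A ∧ ∀ q ∈ G, ¬ q ∣ k)).card : ℝ) ≤
        (((Icc 1 (M * n)).filter (fun n => n ∉ A)).card : ℝ) := by exact_mod_cast hkey
    have hsum : ((12 / 13 : ℝ) - σ) * (M * n) * σ ≤ ∑ p ∈ G, (((Icc 1 (M * n / p)).filter
        (fun k => k ∈ A ∧ ∀ q ∈ G, ¬ q ∣ k)).card : ℝ) := by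
      rw [hσ, Finset.mul_sum]
      apply Finset.sum_le_sum
      intro p hp
      refine le_trans (le_of_eq ?_) (hlow p hp)
      rw [← hσ]; ring
    have hcompl : (((Icc 1 (M * n)).filter (fun n => n ∉ A)).card : ℝ) = (M * n : ℕ) - cnt A (M * n) := by
      have h6 := Finset.card_filter_add_card_filter_not (s := Icc 1 (M * n)) (fun n => n ∈ A)
      rw [Nat.card_Icc, Nat.add_sub_cancel] at h6
      have h7 : (((Icc 1 (M * n)).filter (fun n => n ∈ A)).card : ℝ) +
          ((Icc 1 (M * n)).filter (fun n => n ∉ A)).card = (M * n : ℕ) := by exact_mod_cast h6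
      unfold cnt
      linarith
    have h8 := hN0 (M * n) (by
      have : n ≤ M * n := Nat.le_mul_of_pos_left _ hMpos
      omega)
    rw [hcompl] at hkey'
    push_cast at hkey' h8
    have hX : (0 : ℝ) < M * n := by positivity
    have h9 : ((12 / 13 : ℝ) - σ) * σ * (M * n) ≤ 1 / 13 * (M * n) := by nlinarith
    have h10 : ((12 / 13 : ℝ) - σ) * σ ≤ 1 / 13 := le_of_mul_le_mul_right h9 hX
    nlinarith
  · push Not at hG
    set N := N0 + 1 with hN
    set G := (Icc 1 N).filter (fun p => Q A p) with hGdef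
    have h1 : ∑ p ∈ G, (1 : ℝ) / p < 1 / 4 := hG G (fun p hp => (Finset.mem_filter.1 hp).2)
    have h2 := lower G (fun p hp => (Finset.mem_filter.1 hp).2) N
    have h3 : ((Icc 1 N).filter (fun k => k ∈ A ∧ ∀ q ∈ G, ¬ q ∣ k)) = ∅ := by
      rw [Finset.filter_eq_empty_iff]
      rintro k hk ⟨hkA, hkG⟩
      rw [Finset.mem_Icc] at hk
      obtain ⟨p, hp, hpk⟩ := exists_prime hA (by omega) hkA
      refine hkG p ?_ hpk
      rw [hGdef, Finset.mem_filter, Finset.mem_Icc]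
      exact ⟨⟨hp.1.one_lt.le, (Nat.le_of_dvd (by omega) hpk).trans hk.2⟩, hp⟩
    rw [h3, Finset.card_empty] at h2
    have h4 := hN0 N (by omega)
    have hNpos : (0 : ℝ) < N := by positivity
    have h5 : (N : ℝ) * ∑ p ∈ G, (1 : ℝ) / p ≤ N * (1 / 4) :=
      mul_le_mul_of_nonneg_left h1.le hNpos.le
    push_cast at h2
    linarith

end Pool.Agent.H510R3.EqLen
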