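import Mathlib

set_option autoImplicit false

/-!
There is no `{p, q}`-Diophantine quadruple: for distinct primes `p`, `q` there are no four distinct
positive integers all of whose pairwise products plus one have the form `p ^ i * q ^ j`.
-/

namespace Pool.Agent.H510R3.PQ

/-- the basic identity `y (x z + 1) = x (y z + 1) + (y - x)` -/
lemma ident {x y z : ℕ} (hxy : x ≤ y) : y * (x * z + 1) = x * (y * z + 1) + (y - x) := by
  obtain ⟨t, rfl⟩ := Nat.exists_eq_add_of_le hxy
  rw [Nat.add_sub_cancel_left]; ring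

lemma dvd_sub_of {x y z k : ℕ} (hxy : x ≤ y) (h1 : k ∣ x * z + 1) (h2 : k ∣ y * z + 1) :
    k ∣ y - x := by
  have h3 : k ∣ x * (y * z + 1) + (y - x) := by rw [← ident hxy]; exact h1.mul_left y
  exact (Nat.dvd_add_right (h2.mul_left x)).1 h3

lemma vnot {q x r k : ℕ} (hq : q.Prime) (hx : ¬ q ∣ x) (hr : ¬ q ∣ r) :
    ¬ q ^ (k + 1) ∣ x * (r * q ^ k) := by
  intro h
  have h1 : q ^ k * q ∣ q ^ k * (x * r) := by
    rw [← pow_succ]
    refine h.trans (dvd_of_eq ?_)
    ring
  have h2 := Nat.dvd_of_mul_dvd_mul_left (pow_pos hq.pos k) h1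
  rcases hq.dvd_mul.1 h2 with h3 | h3
  · exact hx h3
  · exact hr h3

lemma not_dvd_pow {p q i : ℕ} (hp : p.Prime) (hq : q.Prime) (hpq : p ≠ q) : ¬ q ∣ p ^ i := by
  intro h
  exact hpq ((Nat.prime_dvd_prime_iff_eq hq hp).1 (hq.dvd_of_dvd_pow h)).symm

lemma ndvd_of_dvd_succ {q x y : ℕ} (hq : q.Prime) (h : q ∣ x * y + 1) : ¬ q ∣ x ∧ ¬ q ∣ y := by
  constructor
  · intro h1
    have := (Nat.dvd_add_right (h1.mul_right y)).1 h
    exact hq.one_lt.ne' (Nat.dvd_one.1 this)
  · intro h1
    have := (Nat.dvd_add_right (h1.mul_left x)).1 h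
    exact hq.one_lt.ne' (Nat.dvd_one.1 this)

lemma incomp {p q i j i' j' : ℕ} (h : ¬ p ^ i * q ^ j ∣ p ^ i' * q ^ j')
    (h' : ¬ p ^ i' * q ^ j' ∣ p ^ i * q ^ j) : (i < i' ∧ j' < j) ∨ (i' < i ∧ j < j') := by
  by_contra hc
  rcases (show (i ≤ i' ∧ j ≤ j') ∨ (i' ≤ i ∧ j' ≤ j) by omega) with ⟨h1, h2⟩ | ⟨h1, h2⟩
  · exact h (mul_dvd_mul (pow_dvd_pow _ h1) (pow_dvd_pow _ h2))
  · exact h' (mul_dvd_mul (pow_dvd_pow _ h1) (pow_dvd_pow _ h2))

/-- The final contradiction. -/
lemma final {a b c d p q u z i w τ κ : ℕ} (hp : p.Prime) (hq : q.Prime) (hpq : p ≠ q)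
    (ha : 0 < a) (hab : a < b) (hbc : b < c) (hcd : c < d)
    (hu : 0 < u) (hi : 0 < i) (hτ : 0 < τ)
    (h1 : a * b + 1 = p ^ i * q ^ w)
    (h3 : a * d + 1 = q ^ τ * (a * b + 1))
    (h4 : b * c + 1 = p ^ u * q ^ τ * (a * b + 1))
    (h6 : c * d + 1 = p ^ z * (a * b + 1))
    (hD : p ^ κ * (q ^ τ * q ^ w) ∣ b - a) : False := by
  set S := a * b + 1 with hS
  set Q := q ^ τ with hQ
  set U := p ^ u with hU
  set W := q ^ w with hW
  set T := p ^ i with hT
  set K := p ^ κ with hK
  have hQpos : 0 < Q := pow_pos hq.pos _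
  have hWpos : 0 < W := pow_pos hq.pos _
  have hUpos : 0 < U := pow_pos hp.pos _
  have hTpos : 0 < T := pow_pos hp.pos _
  have hKpos : 0 < K := pow_pos hp.pos _
  have hpU : p ∣ U := dvd_pow_self p hu.ne'
  have hpT : p ∣ T := dvd_pow_self p hi.ne'
  have hU2 : 2 ≤ U := hp.two_le.trans (Nat.le_of_dvd hUpos hpU)
  have hQ2 : 2 ≤ Q := hq.two_le.trans (Nat.le_of_dvd hQpos (dvd_pow_self q hτ.ne'))
  have hSpos : 0 < S := by omega
  have hb : 0 < b := by omega
  -- y3
  have hdQ : Q * b < d := by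
    by_contra hc
    have : a * d ≤ a * (Q * b) := Nat.mul_le_mul_left a (by omega)
    have e : Q * S = a * (Q * b) + Q := by rw [hS]; ring
    omega
  obtain ⟨y3, hy3⟩ := Nat.exists_eq_add_of_lt hdQ
  have hay : a * (y3 + 1) + 1 = Q := by
    have e : Q * S = a * (Q * b) + Q := by rw [hS]; ring
    rw [hy3] at h3
    have e2 : a * (Q * b + y3 + 1) = a * (Q * b) + a * (y3 + 1) := by ring
    omega
  have hcQ : U * Q * a < c := by
    by_contra hc
    have : b * c ≤ b * (U * Q * a) := Nat.mul_le_mul_left b (by omega)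
    have e : U * Q * S = b * (U * Q * a) + U * Q := by rw [hS]; ring
    have : 0 < U * Q := by positivity
    have : 2 ≤ U * Q := by nlinarith
    omega
  obtain ⟨x4, hx4⟩ := Nat.exists_eq_add_of_lt hcQ
  have hbx : b * (x4 + 1) + 1 = U * Q := by
    have e : U * Q * S = b * (U * Q * a) + U * Q := by rw [hS]; ring
    rw [hx4] at h4
    have e2 : b * (U * Q * a + x4 + 1) = b * (U * Q * a) + b * (x4 + 1) := by ring
    omega
  set y := y3 + 1 with hy
  set x := x4 + 1 with hx
  have hypos : 0 < y := by omega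
  have hxpos : 0 < x := by omega
  have hd' : d = Q * b + y := by omega
  have hc' : c = U * Q * a + x := by omega
  -- c = a + S x
  have hca : c = a + S * x := by
    have : b * c = b * (a + S * x) := by
      have e0 : b * c = b * (U * Q * a) + b * x := by rw [hc']; ring
      have e1 : b * (a + S * x) = b * a + S * (b * x) := by ring
      have e : S * (b * x) + S = S * (U * Q) := by rw [← hbx]; ring
      have e2 : S * (U * Q) = b * (U * Q * a) + U * Q := by rw [hS]; ring
      have e3 : S = b * a + 1 := by rw [hS]; ring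
      omega
    exact Nat.eq_of_mul_eq_mul_left hb this
  -- Z = U Q ^ 2 + y x
  have hZ : p ^ z = U * Q ^ 2 + y * x := by
    have : S * p ^ z = S * (U * Q ^ 2 + y * x) := by
      have e1 : S * p ^ z = c * d + 1 := by rw [h6]; ring
      rw [e1]
      -- c d + 1 = U Q^2 S + y (c - a)
      have e2 : c * d = Q * (b * c) + y * c := by rw [hd']; ring
      have e3 : Q * (b * c) + Q = U * Q ^ 2 * S := by
        have : Q * (b * c) + Q = Q * (b * c + 1) := by ring
        rw [this, h4]; ring
      have e4 : y * c = y * a + y * (S * x) := by rw [hca]; ring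
      have e5 : y * a + 1 = Q := by rw [← hay]; ring
      have e6 : S * (U * Q ^ 2 + y * x) = U * Q ^ 2 * S + y * (S * x) := by ring
      omega
    exact Nat.eq_of_mul_eq_mul_left hSpos this
  -- Z = c y + U Q
  have hZ2 : p ^ z = y * c + U * Q := by
    have e1 : y * c = y * a + y * (S * x) := by rw [hca]; ring
    have e2 : y * (S * x) = y * x + (a * y) * (b * x) := by rw [hS]; ring
    have e3 : (a * y + 1) * (b * x + 1) = Q * (U * Q) := by rw [hay, hbx]
    have e4 : (a * y + 1) * (b * x + 1) = (a * y) * (b * x) + a * y + b * x + 1 := by ring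
    have e5 : Q * (U * Q) = U * Q ^ 2 := by ring
    have e6 : y * a = a * y := by ring
    omega
  have huz : u < z := by
    by_contra hc
    have : p ^ z ≤ U := Nat.pow_le_pow_right hp.pos (by omega)
    have : U * 2 ≤ U * Q := Nat.mul_le_mul_left U hQ2
    omega
  obtain ⟨v, rfl⟩ := Nat.exists_eq_add_of_lt huz
  have hUy : U ∣ y := by
    have h5 : U ∣ y * x := by
      have : U ∣ U * Q ^ 2 + y * x := by rw [← hZ]; exact pow_dvd_pow _ (by omega)
      exact (Nat.dvd_add_right (Dvd.intro _ rfl)).1 this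
    have hcop : Nat.Coprime U x := by
      apply Nat.Coprime.pow_left
      rw [hp.coprime_iff_not_dvd]
      intro h7
      have h8 : p ∣ b * x + 1 := by rw [hbx]; exact hpU.mul_right Q
      have := (Nat.dvd_add_right (h7.mul_left b)).1 h8
      exact hp.one_lt.ne' (Nat.dvd_one.1 this)
    exact hcop.dvd_of_dvd_mul_right h5
  obtain ⟨r, hr⟩ := hUy
  have hrpos : 0 < r := by
    rcases Nat.eq_zero_or_pos r with h | h
    · rw [h] at hr; omega
    · exact h
  -- Z' = r c + Q
  have hZ' : p ^ (v + 1) = r * c + Q := by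
    have : U * p ^ (v + 1) = U * (r * c + Q) := by
      have e : U * p ^ (v + 1) = p ^ (u + v + 1) := by rw [hU, ← pow_add]; congr 1
      rw [e, hZ2, hr]; ring
    exact Nat.eq_of_mul_eq_mul_left hUpos this
  have hTS : T ≤ S := by
    rw [h1]; exact Nat.le_mul_of_pos_right _ hWpos
  have hcS : S < c := by
    rw [hca]
    have : S ≤ S * x := Nat.le_mul_of_pos_right _ hxpos
    omega
  have hiv : i ≤ v + 1 := by
    by_contra hc
    have h7 : p ^ (v + 1) ≤ T := Nat.pow_le_pow_right hp.pos (by omega)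
    have h8 : c ≤ r * c := Nat.le_mul_of_pos_left _ hrpos
    omega
  have hTdvd : T ∣ r * a + Q := by
    have h7 : T ∣ r * c + Q := by rw [← hZ']; exact pow_dvd_pow _ hiv
    have h8 : r * c + Q = r * (S * x) + (r * a + Q) := by rw [hca]; ring
    rw [h8] at h7
    have h9 : T ∣ r * (S * x) := by
      rw [h1]
      exact (((Dvd.intro _ rfl : T ∣ T * W)).mul_right x).mul_left r
    exact (Nat.dvd_add_right h9).1 h7
  have hra : U * (r * a) + 1 = Q := by
    rw [← hay, hr]; ring
  have hra2 : 2 * (r * a) ≤ U * (r * a) := Nat.mul_le_mul_right _ hU2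
  have hrapos : 0 < r * a := Nat.mul_pos hrpos ha
  have hTle : T ≤ r * a + Q := Nat.le_of_dvd (by omega) hTdvd
  -- lower bound for T
  obtain ⟨m, hm⟩ := hD
  have hmpos : 0 < m := by
    rcases Nat.eq_zero_or_pos m with h | h
    · rw [h] at hm; omega
    · exact h
  have hbm : b = a + K * (Q * W) * m := by omega
  have hTlow : a * (K * m) * Q < T := by
    have h7 : a * (K * m) * Q * W < T * W := by
      have e : S = a * a + a * (K * m) * Q * W + 1 := by rw [hS, hbm]; ring
      rw [← h1]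
      omega
    exact Nat.lt_of_mul_lt_mul_right h7
  have hak : a * (K * m) = 1 := by
    have h7 : 0 < a * (K * m) := by positivity
    by_contra hne
    have h8 : 2 ≤ a * (K * m) := by omega
    have h9 : 2 * Q ≤ a * (K * m) * Q := Nat.mul_le_mul_right _ h8
    omega
  have ha1 : a = 1 := Nat.dvd_one.1 ⟨K * m, hak.symm⟩
  have hkm : K * m = 1 := Nat.dvd_one.1 ⟨a, by rw [mul_comm]; exact hak.symm⟩
  have hbW : b = 1 + Q * W := by
    rw [hbm, ha1]
    have : K * (Q * W) * m = (K * m) * (Q * W) := by ring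
    rw [this, hkm, one_mul]
  have hTW : T * W = Q * W + 2 := by
    rw [← h1, hS, ha1, hbW]; ring
  have hTQ : Q < T := by
    have := hTlow
    rw [hak, one_mul] at this
    exact this
  obtain ⟨e, he⟩ := Nat.exists_eq_add_of_lt hTQ
  have hWe : (e + 1) * W = 2 := by
    rw [he] at hTW
    have : (Q + e + 1) * W = Q * W + (e + 1) * W := by ring
    omega
  have hTr : T = r * a + Q := by
    obtain ⟨s, hs⟩ := hTdvd
    have hs1 : s = 1 := by
      have h7 : 0 < s := by
        rcases Nat.eq_zero_or_pos s with h | h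
        · rw [h] at hs; omega
        · exact h
      by_contra hne
      have h8 : 2 ≤ s := by omega
      have h9 : T * 2 ≤ T * s := Nat.mul_le_mul_left _ h8
      omega
    rw [hs1, mul_one] at hs
    exact hs.symm
  have hre : r = e + 1 := by
    rw [ha1, mul_one] at hTr
    omega
  rw [ha1, mul_one] at hra
  have hW2 : W ∣ 2 := ⟨e + 1, by rw [← hWe]; ring⟩
  have hWle : W ≤ 2 := Nat.le_of_dvd (by norm_num) hW2
  rcases (show W = 1 ∨ W = 2 by omega) with hW1 | hW2'
  · -- W = 1
    rw [hW1, mul_one] at hWe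
    rw [hre, hWe] at hra
    rw [hW1, mul_one] at hbW
    -- Q = 2 U + 1, b = 2 (U + 1)
    have h7 : b = 2 * (U + 1) := by omega
    have h8 : (U + 1) * (2 * x + 1) = (U + 1) * (2 * U) := by
      have h9 : b * x + 1 = U * Q := hbx
      rw [h7, ← hra] at h9
      have e1 : (U + 1) * (2 * x + 1) = 2 * (U + 1) * x + 1 + U := by ring
      have e2 : (U + 1) * (2 * U) = U * (U * 2 + 1) + U := by ring
      rw [e1, e2]
      omega
    have h10 := Nat.eq_of_mul_eq_mul_left (by omega) h8
    omega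
  · -- W = 2
    have he0 : e + 1 = 1 := by
      rw [hW2'] at hWe; omega
    rw [hre, he0, mul_one] at hra
    rw [hre, he0, ha1] at hTr
    have h7 : p ∣ 2 := by
      have h8 : T = U + 2 := by omega
      rw [h8] at hpT
      exact (Nat.dvd_add_right hpU).1 hpT
    have hp2 : p = 2 := (Nat.prime_dvd_prime_iff_eq hp Nat.prime_two).1 h7
    have hq2 : q = 2 := by
      have h8 : q ∣ W := by
        rcases Nat.eq_zero_or_pos w with h | h
        · rw [hW, h] at hW2'; simp at hW2'
        · exact dvd_pow_self q h.ne'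
      rw [hW2'] at h8
      exact (Nat.prime_dvd_prime_iff_eq hq Nat.prime_two).1 h8
    exact hpq (hp2.trans hq2.symm)

end Pool.Agent.H510R3.PQ
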