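import Pool.Agent.H510R3.PQ

set_option autoImplicit false
set_option linter.unusedVariables false

namespace Pool.Agent.H510R3.PQ

/-- bound on a middle term: if `D₁ ∣ u`, `D₂ ∣ v`, `u, v > 0` and `s * m = D₁ * D₂` with `m > 0`
then `s ≤ u * v` -/
lemma mid_bound {s m D1 D2 u v : ℕ} (hm : 0 < m) (hu : 0 < u) (hv : 0 < v) (h1 : D1 ∣ u)
    (h2 : D2 ∣ v) (h : s * m = D1 * D2) : s ≤ u * v :=
  calc s ≤ s * m := Nat.le_mul_of_pos_right _ hm
    _ = D1 * D2 := h
    _ ≤ u * v := Nat.mul_le_mul (Nat.le_of_dvd hu h1) (Nat.le_of_dvd hv h2)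

lemma core {a b c d p q i1 i2 i3 i4 i5 i6 j1 j2 j3 j4 j5 j6 : ℕ} (hp : p.Prime) (hq : q.Prime)
    (hpq : p ≠ q) (ha : 0 < a) (hab : a < b) (hbc : b < c) (hcd : c < d)
    (h1 : a * b + 1 = p ^ i1 * q ^ j1) (h2 : a * c + 1 = p ^ i2 * q ^ j2)
    (h3 : a * d + 1 = p ^ i3 * q ^ j3) (h4 : b * c + 1 = p ^ i4 * q ^ j4)
    (h5 : b * d + 1 = p ^ i5 * q ^ j5) (h6 : c * d + 1 = p ^ i6 * q ^ j6)
    (o1 : i5 < i3) (o2 : i3 < i6) (o3 : j6 < j3) (o4 : j3 < j5) : False := by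
  have hqp : q ≠ p := fun h => hpq h.symm
  -- general tools
  have toolq : ∀ {x s k i : ℕ}, ¬ q ∣ x → s = p ^ i * q ^ k → ¬ q ^ (k + 1) ∣ x * s := by
    intro x s k i hx hs h
    rw [hs] at h
    exact vnot hq hx (not_dvd_pow hp hq hpq) h
  have toolp : ∀ {x s k j : ℕ}, ¬ p ∣ x → s = p ^ k * q ^ j → ¬ p ^ (k + 1) ∣ x * s := by
    intro x s k j hx hs h
    rw [hs, mul_comm (p ^ k)] at h
    exact vnot hp hx (not_dvd_pow hq hp hqp) h
  have dq : ∀ {s k i j : ℕ}, s = p ^ i * q ^ j → k ≤ j → q ^ k ∣ s := by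
    intro s k i j hs hk
    rw [hs]; exact (pow_dvd_pow q hk).mul_left _
  have dp : ∀ {s k i j : ℕ}, s = p ^ i * q ^ j → k ≤ i → p ^ k ∣ s := by
    intro s k i j hs hk
    rw [hs]; exact (pow_dvd_pow p hk).mul_right _
  have dpq : ∀ {s k l i j : ℕ}, s = p ^ i * q ^ j → k ≤ i → l ≤ j → p ^ k * q ^ l ∣ s := by
    intro s k l i j hs hk hl
    rw [hs]; exact mul_dvd_mul (pow_dvd_pow _ hk) (pow_dvd_pow _ hl)
  have p1 : ∀ {s i j : ℕ}, s = p ^ i * q ^ j → 0 < i → p ∣ s := by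
    intro s i j hs hi
    have := dp (k := 1) hs hi
    rwa [pow_one] at this
  have q1 : ∀ {s i j : ℕ}, s = p ^ i * q ^ j → 0 < j → q ∣ s := by
    intro s i j hs hi
    have := dq (k := 1) hs hi
    rwa [pow_one] at this
  -- units
  have pa : ¬ p ∣ a := (ndvd_of_dvd_succ hp (p1 h3 (by omega))).1
  have pd : ¬ p ∣ d := (ndvd_of_dvd_succ hp (p1 h3 (by omega))).2
  have pc : ¬ p ∣ c := (ndvd_of_dvd_succ hp (p1 h6 (by omega))).1
  have qa : ¬ q ∣ a := (ndvd_of_dvd_succ hq (q1 h3 (by omega))).1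
  have qd : ¬ q ∣ d := (ndvd_of_dvd_succ hq (q1 h3 (by omega))).2
  have qb : ¬ q ∣ b := (ndvd_of_dvd_succ hq (q1 h5 (by omega))).1
  -- divisors of differences
  have D1 : p ^ i5 * q ^ j3 ∣ b - a :=
    dvd_sub_of hab.le (dpq h3 o1.le le_rfl) (dpq h5 le_rfl o4.le)
  have D2 : p ^ i3 * q ^ j6 ∣ c - a :=
    dvd_sub_of (by omega) (dpq h3 le_rfl o3.le) (dpq h6 o2.le le_rfl)
  have hs3 : a * d + 1 ≤ (b - a) * (c - a) := by
    refine mid_bound (m := p ^ i5 * q ^ j6) (Nat.mul_pos (pow_pos hp.pos _) (pow_pos hq.pos _))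
      (by omega) (by omega) D1 D2 ?_
    rw [h3]; ring
  have hadbc : a * d + 1 < b * c := by
    refine hs3.trans_lt ?_
    have h7 : (b - a) * (c - a) ≤ (b - a) * c := Nat.mul_le_mul_left _ (by omega)
    have h8 : (b - a) * c < b * c := Nat.mul_lt_mul_of_pos_right (by omega) (by omega)
    omega
  have hdbc : d < b * c := by
    have : d ≤ a * d := Nat.le_mul_of_pos_left _ ha
    omega
  -- s2, s4 incomparable
  have inc24 : (i2 < i4 ∧ j4 < j2) ∨ (i4 < i2 ∧ j2 < j4) := by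
    apply incomp (p := p) (q := q)
    · rw [← h2, ← h4]
      intro h
      have h7 := Nat.le_of_dvd (by omega) (dvd_sub_of hab.le (dvd_refl (a * c + 1)) h)
      have : c ≤ a * c := Nat.le_mul_of_pos_left _ ha
      omega
    · rw [← h2, ← h4]
      intro h
      have h7 := Nat.le_of_dvd (by omega) h
      have : a * c < b * c := Nat.mul_lt_mul_of_pos_right hab (by omega)
      omega
  -- exact valuations of b - a
  have eq_ba : ¬ q ^ (j3 + 1) ∣ b - a := by
    intro h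
    refine toolq qb h3 ?_
    rw [ident hab.le]
    exact dvd_add ((dq h5 o4).mul_left a) h
  have ep_ba : ¬ p ^ (i5 + 1) ∣ b - a := by
    intro h
    refine toolp pa h5 ?_
    have h7 : p ^ (i5 + 1) ∣ a * (b * d + 1) + (b - a) := by
      rw [← ident hab.le]
      exact (dp h3 o1).mul_left b
    exact (Nat.dvd_add_left h).1 h7
  have qba : ∀ {k : ℕ}, k ≤ j3 → q ^ k ∣ b - a := fun hk =>
    ((pow_dvd_pow q hk).trans (Dvd.intro_left _ rfl)).trans D1
  have pba : ∀ {k : ℕ}, k ≤ i5 → p ^ k ∣ b - a := fun hk =>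
    ((pow_dvd_pow p hk).trans (Dvd.intro _ rfl)).trans D1
  have minq : min j2 j4 = j3 := by
    apply le_antisymm
    · by_contra hc
      have h7 : j3 + 1 ≤ j2 ∧ j3 + 1 ≤ j4 := by omega
      exact eq_ba (dvd_sub_of hab.le (dq h2 h7.1) (dq h4 h7.2))
    · by_contra hc
      rcases inc24 with ⟨-, h7⟩ | ⟨-, h7⟩
      · -- j4 < j2, j4 < j3
        refine toolq qa h4 ?_
        have h8 : q ^ (j4 + 1) ∣ a * (b * c + 1) + (b - a) := by
          rw [← ident hab.le]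
          exact (dq h2 h7).mul_left b
        exact (Nat.dvd_add_left (qba (by omega))).1 h8
      · refine toolq qb h2 ?_
        rw [ident hab.le]
        exact dvd_add ((dq h4 h7).mul_left a) (qba (by omega))
  have minp : min i2 i4 = i5 := by
    apply le_antisymm
    · by_contra hc
      have h7 : i5 + 1 ≤ i2 ∧ i5 + 1 ≤ i4 := by omega
      exact ep_ba (dvd_sub_of hab.le (dp h2 h7.1) (dp h4 h7.2))
    · by_contra hc
      rcases inc24 with ⟨h7, -⟩ | ⟨h7, -⟩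
      · -- i2 < i4, i2 < i5
        have pb : ¬ p ∣ b := (ndvd_of_dvd_succ hp (p1 h4 (by omega))).1
        refine toolp pb h2 ?_
        rw [ident hab.le]
        exact dvd_add ((dp h4 h7).mul_left a) (pba (by omega))
      · refine toolp pa h4 ?_
        have h8 : p ^ (i4 + 1) ∣ a * (b * c + 1) + (b - a) := by
          rw [← ident hab.le]
          exact (dp h2 h7).mul_left b
        exact (Nat.dvd_add_left (pba (by omega))).1 h8
  rcases inc24 with ⟨hi, hj⟩ | ⟨hi, hj⟩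
  swap
  · -- i4 < i2, j2 < j4 : then i4 = i5, s4 ∣ s5
    have e1 : i4 = i5 := by omega
    have hlt : b * c + 1 < b * d + 1 := by
      have := Nat.mul_lt_mul_of_pos_left hcd (by omega : 0 < b)
      omega
    have h7 : j4 < j5 := by
      by_contra hc
      have : p ^ i5 * q ^ j5 ≤ p ^ i4 * q ^ j4 := by
        rw [e1]; exact Nat.mul_le_mul_left _ (Nat.pow_le_pow_right hq.pos (by omega))
      omega
    have h8 : b * c + 1 ∣ b * d + 1 := by
      rw [h4, h5, e1]; exact mul_dvd_mul_left _ (pow_dvd_pow _ h7.le)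
    have h9 : b * c + 1 ∣ d - c := by
      apply dvd_sub_of (z := b) hcd.le
      · rw [mul_comm c b]
      · rw [mul_comm d b]; exact h8
    have := Nat.le_of_dvd (by omega) h9
    omega
  · -- main case
    have e2 : i2 = i5 := by omega
    have e4 : j4 = j3 := by omega
    rw [e4] at h4
    have hi34 : i3 < i4 := by
      by_contra hc
      have : p ^ i4 * q ^ j3 ≤ p ^ i3 * q ^ j3 :=
        Nat.mul_le_mul_right _ (Nat.pow_le_pow_right hp.pos (by omega))
      omega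
    have qc : ¬ q ∣ c := (ndvd_of_dvd_succ hq (q1 h4 (by omega))).2
    have hac : a ≤ c := by omega
    have h4' : c * b + 1 = p ^ i4 * q ^ j3 := by rw [mul_comm c b]; exact h4
    -- exact valuations of c - a
    have ep_ca : ¬ p ^ (i3 + 1) ∣ c - a := by
      intro h
      refine toolp pc h3 ?_
      rw [ident hac]
      exact dvd_add ((dp h6 o2).mul_left a) h
    have eq_ca : ¬ q ^ (j6 + 1) ∣ c - a := by
      intro h
      refine toolq qa h6 ?_
      have h7 : q ^ (j6 + 1) ∣ a * (c * d + 1) + (c - a) := by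
        rw [← ident hac]
        exact (dq h3 o3).mul_left c
      exact (Nat.dvd_add_left h).1 h7
    have qca : ∀ {k : ℕ}, k ≤ j6 → q ^ k ∣ c - a := fun hk =>
      ((pow_dvd_pow q hk).trans (Dvd.intro_left _ rfl)).trans D2
    have pca : ∀ {k : ℕ}, k ≤ i3 → p ^ k ∣ c - a := fun hk =>
      ((pow_dvd_pow p hk).trans (Dvd.intro _ rfl)).trans D2
    have ei1 : i1 = i3 := by
      apply le_antisymm
      · by_contra hc
        exact ep_ca (dvd_sub_of hac (dp h1 (by omega)) (dp h4' (by omega)))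
      · by_contra hc
        refine toolp pc h1 ?_
        rw [ident hac]
        exact dvd_add ((dp h4' (by omega)).mul_left a) (pca (by omega))
    have ej1 : j1 = j6 := by
      apply le_antisymm
      · by_contra hc
        exact eq_ca (dvd_sub_of hac (dq h1 (by omega)) (dq h4' (by omega)))
      · by_contra hc
        refine toolq qc h1 ?_
        rw [ident hac]
        exact dvd_add ((dq h4' (by omega)).mul_left a) (qca (by omega))
    rw [ei1, ej1] at h1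
    refine final (a := a) (b := b) (c := c) (d := d) (p := p) (q := q) (u := i4 - i3)
      (z := i6 - i3) (i := i3) (w := j6) (τ := j3 - j6) (κ := i5) hp hq hpq ha hab hbc hcd
      (by omega) (by omega) (by omega) h1 ?_ ?_ ?_ ?_
    · rw [h1, h3]
      have : q ^ j3 = q ^ (j3 - j6) * q ^ j6 := by rw [← pow_add]; congr 1; omega
      rw [this]; ring
    · rw [h1, h4]
      have e5 : q ^ j3 = q ^ (j3 - j6) * q ^ j6 := by rw [← pow_add]; congr 1; omega
      have e6 : p ^ i4 = p ^ (i4 - i3) * p ^ i3 := by rw [← pow_add]; congr 1; omega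
      rw [e5, e6]; ring
    · rw [h1, h6]
      have e6 : p ^ i6 = p ^ (i6 - i3) * p ^ i3 := by rw [← pow_add]; congr 1; omega
      rw [e6]; ring
    · have : q ^ (j3 - j6) * q ^ j6 = q ^ j3 := by rw [← pow_add]; congr 1; omega
      rw [this]; exact D1

/-- **There is no `{p, q}`-Diophantine quadruple.** -/
theorem no_quadruple {p q : ℕ} (hp : p.Prime) (hq : q.Prime) (hpq : p ≠ q) {a b c d : ℕ}
    (ha : 0 < a) (hab : a < b) (hbc : b < c) (hcd : c < d)
    (h1 : ∃ i j : ℕ, a * b + 1 = p ^ i * q ^ j) (h2 : ∃ i j : ℕ, a * c + 1 = p ^ i * q ^ j)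
    (h3 : ∃ i j : ℕ, a * d + 1 = p ^ i * q ^ j) (h4 : ∃ i j : ℕ, b * c + 1 = p ^ i * q ^ j)
    (h5 : ∃ i j : ℕ, b * d + 1 = p ^ i * q ^ j) (h6 : ∃ i j : ℕ, c * d + 1 = p ^ i * q ^ j) :
    False := by
  obtain ⟨i1, j1, h1⟩ := h1
  obtain ⟨i2, j2, h2⟩ := h2
  obtain ⟨i3, j3, h3⟩ := h3
  obtain ⟨i4, j4, h4⟩ := h4
  obtain ⟨i5, j5, h5⟩ := h5
  obtain ⟨i6, j6, h6⟩ := h6
  have had : d ≤ a * d := Nat.le_mul_of_pos_left _ ha
  have l1 : a * d < b * d := Nat.mul_lt_mul_of_pos_right hab (by omega)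
  have l2 : b * d < c * d := Nat.mul_lt_mul_of_pos_right hbc (by omega)
  have inc : ∀ {s t i j i' j' x y : ℕ}, x < y → x * d + 1 = p ^ i * q ^ j →
      y * d + 1 = p ^ i' * q ^ j' → 0 < x → y < d →
      (i < i' ∧ j' < j) ∨ (i' < i ∧ j < j') := by
    intro s t i j i' j' x y hxy hs ht hx hyd
    apply incomp (p := p) (q := q)
    · rw [← hs, ← ht]
      intro h
      have h7 := Nat.le_of_dvd (by omega) (dvd_sub_of hxy.le (dvd_refl (x * d + 1)) h)
      have : d ≤ x * d := Nat.le_mul_of_pos_left _ hx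
      omega
    · rw [← hs, ← ht]
      intro h
      have h7 := Nat.le_of_dvd (by omega) h
      have : x * d < y * d := Nat.mul_lt_mul_of_pos_right hxy (by omega)
      omega
  have c35 := inc (s := 0) (t := 0) hab h3 h5 ha (by omega)
  have c36 := inc (s := 0) (t := 0) (by omega : a < c) h3 h6 ha hcd
  have c56 := inc (s := 0) (t := 0) hbc h5 h6 (by omega) hcd
  have pos : ∀ {i j : ℕ}, 0 < p ^ i * q ^ j := fun {i j} =>
    Nat.mul_pos (pow_pos hp.pos _) (pow_pos hq.pos _)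
  -- s5 is not the middle term
  have bd5 : ¬ (b * d + 1 ≤ (b - a) * (c - b)) := by
    intro h
    have h7 : (b - a) * (c - b) ≤ b * d := Nat.mul_le_mul (by omega) (by omega)
    omega
  have bd6 : ¬ (c * d + 1 ≤ (c - a) * (c - b)) := by
    intro h
    have h7 : (c - a) * (c - b) ≤ c * d := Nat.mul_le_mul (by omega) (by omega)
    omega
  have dpq : ∀ {s k l i j : ℕ}, s = p ^ i * q ^ j → k ≤ i → l ≤ j → p ^ k * q ^ l ∣ s := by
    intro s k l i j hs hk hl
    rw [hs]; exact mul_dvd_mul (pow_dvd_pow _ hk) (pow_dvd_pow _ hl)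
  have n1 : ¬ (i3 < i5 ∧ i5 < i6 ∧ j6 < j5 ∧ j5 < j3) := by
    rintro ⟨u1, u2, u3, u4⟩
    apply bd5
    refine mid_bound (m := p ^ i3 * q ^ j6) pos (by omega) (by omega)
      (dvd_sub_of (k := p ^ i3 * q ^ j5) hab.le (dpq h3 le_rfl u4.le) (dpq h5 u1.le le_rfl))
      (dvd_sub_of (k := p ^ i5 * q ^ j6) hbc.le (dpq h5 le_rfl u3.le) (dpq h6 u2.le le_rfl)) ?_
    rw [h5]; ring
  have n2 : ¬ (i6 < i5 ∧ i5 < i3 ∧ j3 < j5 ∧ j5 < j6) := by
    rintro ⟨u1, u2, u3, u4⟩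
    apply bd5
    refine mid_bound (m := p ^ i6 * q ^ j3) pos (by omega) (by omega)
      (dvd_sub_of (k := p ^ i5 * q ^ j3) hab.le (dpq h3 u2.le le_rfl) (dpq h5 le_rfl u3.le))
      (dvd_sub_of (k := p ^ i6 * q ^ j5) hbc.le (dpq h5 u1.le le_rfl) (dpq h6 le_rfl u4.le)) ?_
    rw [h5]; ring
  have n3 : ¬ (i3 < i6 ∧ i6 < i5 ∧ j5 < j6 ∧ j6 < j3) := by
    rintro ⟨u1, u2, u3, u4⟩
    apply bd6
    refine mid_bound (m := p ^ i3 * q ^ j5) pos (by omega) (by omega)
      (dvd_sub_of (k := p ^ i3 * q ^ j6) (by omega) (dpq h3 le_rfl u4.le) (dpq h6 u1.le le_rfl))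
      (dvd_sub_of (k := p ^ i6 * q ^ j5) hbc.le (dpq h5 u2.le le_rfl) (dpq h6 le_rfl u3.le)) ?_
    rw [h6]; ring
  have n4 : ¬ (i5 < i6 ∧ i6 < i3 ∧ j3 < j6 ∧ j6 < j5) := by
    rintro ⟨u1, u2, u3, u4⟩
    apply bd6
    refine mid_bound (m := p ^ i5 * q ^ j3) pos (by omega) (by omega)
      (dvd_sub_of (k := p ^ i6 * q ^ j3) (by omega) (dpq h3 u2.le le_rfl) (dpq h6 le_rfl u3.le))
      (dvd_sub_of (k := p ^ i5 * q ^ j6) hbc.le (dpq h5 le_rfl u4.le) (dpq h6 u1.le le_rfl)) ?_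
    rw [h6]; ring
  rcases (show (i5 < i3 ∧ i3 < i6 ∧ j6 < j3 ∧ j3 < j5) ∨ (j5 < j3 ∧ j3 < j6 ∧ i6 < i3 ∧ i3 < i5) by
    omega) with ⟨u1, u2, u3, u4⟩ | ⟨u1, u2, u3, u4⟩
  · exact core hp hq hpq ha hab hbc hcd h1 h2 h3 h4 h5 h6 u1 u2 u3 u4
  · rw [mul_comm (p ^ _)] at h1 h2 h3 h4 h5 h6
    exact core hq hp (fun h => hpq h.symm) ha hab hbc hcd h1 h2 h3 h4 h5 h6 u1 u2 u3 u4

end Pool.Agent.H510R3.PQ
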